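import Pool.Agent.N71.RP.Stm
import Pool.Agent.Erdos456.Mertens

/-!
# Project RP (helper71), leaf SMOG (helper391), after Pool/Agent/N727/EX/SMO.lean (helper727)
-/

set_option autoImplicit false

namespace Pool.Agent.N391.RP

open Finset Filter
open Pool.Agent.N71.RP (Chr cv r2 r4 E_POS E_SMOG)
open scoped Classical

/-- a function on `ℕ` as an arithmetic function -/
noncomputable def af (f : ℕ → ℝ) : ArithmeticFunction ℝ :=
  ⟨fun n => if n = 0 then 0 else f n, by simp⟩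

theorem af_ne {f : ℕ → ℝ} {n : ℕ} (hn : n ≠ 0) : af f n = f n := by
  show (if n = 0 then (0 : ℝ) else f n) = f n
  rw [if_neg hn]

theorem af_cv (f h : ℕ → ℝ) : af (cv f h) = af f * af h := by
  ext n
  by_cases hn : n = 0
  · subst hn
    rw [ArithmeticFunction.map_zero, ArithmeticFunction.map_zero]
  rw [af_ne hn, ArithmeticFunction.mul_apply,
    Nat.sum_divisorsAntidiagonal (fun a b => af f a * af h b)]
  unfold cv
  refine Finset.sum_congr rfl fun m hm => ?_
  have hm0 : m ≠ 0 := (Nat.pos_of_mem_divisors hm).ne'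
  have hd : n / m ≠ 0 := (Nat.div_pos (Nat.divisor_le hm) (Nat.pos_of_mem_divisors hm)).ne'
  rw [af_ne hm0, af_ne hd]

/-- completely multiplicative with values `0`, `1`, `-1` -/
structure CM (f : ℕ → ℝ) : Prop where
  one : f 1 = 1
  mul : ∀ a b : ℕ, a ≠ 0 → b ≠ 0 → f (a * b) = f a * f b
  val : ∀ n : ℕ, f n = 0 ∨ f n = 1 ∨ f n = -1

theorem CM.mult {f : ℕ → ℝ} (h : CM f) : (af f).IsMultiplicative := by
  refine ⟨?_, ?_⟩
  · rw [af_ne one_ne_zero, h.one]
  · intro m n _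
    by_cases hm : m = 0
    · subst hm
      rw [zero_mul, ArithmeticFunction.map_zero, zero_mul]
    by_cases hn : n = 0
    · subst hn
      rw [mul_zero, ArithmeticFunction.map_zero, mul_zero]
    rw [af_ne (Nat.mul_ne_zero hm hn), af_ne hm, af_ne hn, h.mul m n hm hn]

theorem CM.pow {f : ℕ → ℝ} (h : CM f) (p : ℕ) (hp : p.Prime) (k : ℕ) : f (p ^ k) = f p ^ k := by
  induction k with
  | zero => rw [pow_zero, pow_zero, h.one]
  | succ k ih => rw [pow_succ, h.mul _ _ (pow_ne_zero _ hp.ne_zero) hp.ne_zero, ih, pow_succ]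

/-- multiplicative functions with an Euler factor which is a product of `N` factors -/
structure Good (r : ℕ → ℝ) (N : ℝ) (L : ℕ → ℝ → ℝ) : Prop where
  mult : (af r).IsMultiplicative
  loc : ∀ p : ℕ, p.Prime → ∀ x : ℝ, 0 < x → x < 1 →
    (Summable fun k : ℕ => ‖r (p ^ k) * x ^ k‖) ∧ ∑' k : ℕ, r (p ^ k) * x ^ k = L p x
  pos : ∀ (p : ℕ) (x : ℝ), 0 < x → x < 1 → 0 < L p x
  cmp : ∀ (p : ℕ) (x y : ℝ), 0 < x → x ≤ y → y ≤ 2 / 3 → L p y ≤ Real.exp (3 * N * (y - x)) * L p x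

/-- One Euler factor. -/
theorem one_factor (c x y : ℝ) (hc : c = 0 ∨ c = 1 ∨ c = -1) (hx : 0 < x) (hxy : x ≤ y)
    (hy : y ≤ 2 / 3) :
    (1 - c * y)⁻¹ ≤ Real.exp (3 * 1 * (y - x)) * (1 - c * x)⁻¹ := by
  rw [mul_one]
  have hE : 1 + 3 * (y - x) ≤ Real.exp (3 * (y - x)) := by
    have := Real.add_one_le_exp (3 * (y - x))
    linarith
  have hE1 : 1 ≤ Real.exp (3 * (y - x)) := by nlinarith
  have key : 1 - x ≤ Real.exp (3 * (y - x)) * (1 - y) := by
    have h1 : (1 + 3 * (y - x)) * (1 - y) ≤ Real.exp (3 * (y - x)) * (1 - y) :=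
      mul_le_mul_of_nonneg_right hE (by linarith)
    nlinarith [mul_nonneg (sub_nonneg.2 hxy) (sub_nonneg.2 hy)]
  have hcy : 0 < 1 - c * y := by
    rcases hc with h | h | h <;> rw [h] <;> linarith
  have hcx : 0 < 1 - c * x := by
    rcases hc with h | h | h <;> rw [h] <;> linarith
  have key2 : 1 - c * x ≤ Real.exp (3 * (y - x)) * (1 - c * y) := by
    rcases hc with h | h | h <;> rw [h]
    · simpa using hxy
    · simpa using key
    · have : 1 + x ≤ Real.exp (3 * (y - x)) * (1 + y) := by nlinarith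
      simpa using this
  rw [← div_eq_mul_inv, le_div_iff₀ hcx, inv_mul_le_iff₀ hcy]
  linarith

theorem CM.good {f : ℕ → ℝ} (h : CM f) : Good f 1 (fun p x => (1 - f p * x)⁻¹) := by
  refine ⟨h.mult, fun p hp x hx0 hx1 => ?_, fun p x hx0 hx1 => ?_, fun p x y hx hxy hy =>
    one_factor (f p) x y (h.val p) hx hxy hy⟩
  · have hn2 : ‖f p * x‖ < 1 := by
      rw [norm_mul, Real.norm_eq_abs, Real.norm_of_nonneg hx0.le]
      have : |f p| ≤ 1 := by rcases h.val p with h' | h' | h' <;> rw [h'] <;> norm_num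
      calc |f p| * x ≤ 1 * x := by gcongr
        _ < 1 := by rw [one_mul]; exact hx1
    have he : (fun k : ℕ => f (p ^ k) * x ^ k) = fun k => (f p * x) ^ k := by
      funext k
      rw [h.pow p hp, mul_pow]
    refine ⟨?_, ?_⟩
    · have he' : (fun k : ℕ => ‖f (p ^ k) * x ^ k‖) = fun k => ‖f p * x‖ ^ k := by
        funext k
        rw [h.pow p hp, ← mul_pow, norm_pow]
      rw [he']
      exact summable_geometric_of_lt_one (norm_nonneg _) hn2
    · rw [he, tsum_geometric_of_norm_lt_one hn2]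
  · apply inv_pos.2
    rcases h.val p with h' | h' | h' <;> rw [h'] <;> linarith

theorem cv_pp (f h : ℕ → ℝ) (p : ℕ) (hp : p.Prime) (k : ℕ) :
    cv f h (p ^ k) = ∑ j ∈ range (k + 1), f (p ^ j) * h (p ^ (k - j)) := by
  unfold cv
  rw [Nat.sum_divisors_prime_pow hp]
  refine Finset.sum_congr rfl fun j hj => ?_
  have hj' : j ≤ k := Nat.lt_succ_iff.1 (Finset.mem_range.1 hj)
  rw [Nat.pow_div hj' hp.pos]

theorem Good.cv {r r' : ℕ → ℝ} {N N' : ℝ} {L L' : ℕ → ℝ → ℝ} (h : Good r N L) (h' : Good r' N' L') :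
    Good (cv r r') (N + N') (fun p x => L p x * L' p x) := by
  refine ⟨?_, fun p hp x hx0 hx1 => ?_, fun p x hx0 hx1 => mul_pos (h.pos p x hx0 hx1)
    (h'.pos p x hx0 hx1), fun p x y hx hxy hy => ?_⟩
  · rw [af_cv]
    exact h.mult.mul h'.mult
  · obtain ⟨s1, t1⟩ := h.loc p hp x hx0 hx1
    obtain ⟨s2, t2⟩ := h'.loc p hp x hx0 hx1
    obtain ⟨F, hF⟩ : ∃ F : ℕ → ℝ, F = fun k => r (p ^ k) * x ^ k := ⟨_, rfl⟩
    obtain ⟨G, hG⟩ : ∃ G : ℕ → ℝ, G = fun k => r' (p ^ k) * x ^ k := ⟨_, rfl⟩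
    have s1' : Summable fun k => ‖F k‖ := by rw [hF]; exact s1
    have s2' : Summable fun k => ‖G k‖ := by rw [hG]; exact s2
    have t1' : ∑' k, F k = L p x := by rw [hF]; exact t1
    have t2' : ∑' k, G k = L' p x := by rw [hG]; exact t2
    have he : ∀ k : ℕ, Pool.Agent.N71.RP.cv r r' (p ^ k) * x ^ k =
        ∑ j ∈ range (k + 1), F j * G (k - j) := by
      intro k
      rw [cv_pp r r' p hp, Finset.sum_mul]
      refine Finset.sum_congr rfl fun j hj => ?_
      have hj' : j ≤ k := Nat.lt_succ_iff.1 (Finset.mem_range.1 hj)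
      have e3 : x ^ k = x ^ j * x ^ (k - j) := by rw [← pow_add, Nat.add_sub_cancel' hj']
      have e4 : F j = r (p ^ j) * x ^ j := by rw [hF]
      have e5 : G (k - j) = r' (p ^ (k - j)) * x ^ (k - j) := by rw [hG]
      rw [e3, e4, e5]
      ring
    have e1 : (fun k : ℕ => ‖Pool.Agent.N71.RP.cv r r' (p ^ k) * x ^ k‖) =
        fun n => ‖∑ k ∈ range (n + 1), F k * G (n - k)‖ := by
      funext k
      rw [he]
    have e2 : (fun k : ℕ => Pool.Agent.N71.RP.cv r r' (p ^ k) * x ^ k) =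
        fun n => ∑ k ∈ range (n + 1), F k * G (n - k) := by
      funext k
      rw [he]
    refine ⟨?_, ?_⟩
    · rw [e1]
      exact summable_norm_sum_mul_range_of_summable_norm s1' s2'
    · rw [e2, ← tsum_mul_tsum_eq_tsum_sum_range_of_summable_norm s1' s2', t1', t2']
  · have e : Real.exp (3 * (N + N') * (y - x)) =
        Real.exp (3 * N * (y - x)) * Real.exp (3 * N' * (y - x)) := by
      rw [← Real.exp_add]
      congr 1
      ring
    rw [e]
    have c1 := h.cmp p x y hx hxy hy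
    have c2 := h'.cmp p x y hx hxy hy
    have p1 := h.pos p x hx (by linarith)
    have p2 := h'.pos p y (by linarith) (by linarith)
    calc L p y * L' p y ≤ (Real.exp (3 * N * (y - x)) * L p x) *
          (Real.exp (3 * N' * (y - x)) * L' p x) :=
          mul_le_mul c1 c2 p2.le (by positivity)
      _ = _ := by ring

/-- The Euler product. -/
noncomputable def FF (L : ℕ → ℝ → ℝ) (z : ℕ) (a : ℝ) : ℝ :=
  ∏ p ∈ (Finset.Icc 1 z).filter Nat.Prime, L p ((p : ℝ) ^ (-a))

theorem x_lt (a : ℝ) (ha : 0 < a) (p : ℕ) (hp : p.Prime) :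
    0 < (p : ℝ) ^ (-a) ∧ (p : ℝ) ^ (-a) < 1 := by
  have hp1 : (1 : ℝ) < p := by exact_mod_cast hp.one_lt
  refine ⟨Real.rpow_pos_of_pos (by linarith) _, ?_⟩
  exact Real.rpow_lt_one_of_one_lt_of_neg hp1 (by linarith)

theorem FF_pos {r : ℕ → ℝ} {N : ℝ} {L : ℕ → ℝ → ℝ} (h : Good r N L) (z : ℕ) (a : ℝ) (ha : 0 < a) :
    0 < FF L z a := by
  unfold FF
  refine Finset.prod_pos fun p hp => ?_
  obtain ⟨hx0, hx1⟩ := x_lt a ha p (Finset.mem_filter.1 hp).2
  exact h.pos p _ hx0 hx1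

theorem hasSum_FF {r : ℕ → ℝ} {N : ℝ} {L : ℕ → ℝ → ℝ} (h : Good r N L) (z : ℕ) (a : ℝ)
    (ha : 0 < a) : HasSum (Set.indicator (Nat.factoredNumbers (Finset.Icc 1 z))
      (fun n => af r n * (n : ℝ) ^ (-a))) (FF L z a) := by
  have e : ∀ (p : ℕ), p.Prime → ∀ k : ℕ, af r (p ^ k) * ((p ^ k : ℕ) : ℝ) ^ (-a) =
      r (p ^ k) * ((p : ℝ) ^ (-a)) ^ k := by
    intro p hp k
    have h1 : ((p ^ k : ℕ) : ℝ) ^ (-a) = ((p : ℝ) ^ (-a)) ^ k := by
      rw [Nat.cast_pow, ← Real.rpow_natCast, ← Real.rpow_natCast, ← Real.rpow_mul (Nat.cast_nonneg _),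
        ← Real.rpow_mul (Nat.cast_nonneg _), mul_comm]
    rw [af_ne (pow_ne_zero _ hp.ne_zero), h1]
  have h1 := (EulerProduct.summable_and_hasSum_factoredNumbers_prod_filter_prime_tsum
    (f := fun n => af r n * (n : ℝ) ^ (-a))
    (by
      show af r 1 * ((1 : ℕ) : ℝ) ^ (-a) = 1
      rw [h.mult.1]
      simp)
    (fun {m n} hmn => by
      show af r (m * n) * ((m * n : ℕ) : ℝ) ^ (-a) = (af r m * (m : ℝ) ^ (-a)) * (af r n * (n : ℝ) ^ (-a))
      rw [h.mult.2 hmn, Nat.cast_mul, Real.mul_rpow (Nat.cast_nonneg _) (Nat.cast_nonneg _)]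
      ring)
    (fun {p} hp => by
      obtain ⟨hx0, hx1⟩ := x_lt a ha p hp
      have := (h.loc p hp _ hx0 hx1).1
      simpa only [e p hp] using this) (Finset.Icc 1 z)).2
  have h2 : ∏ p ∈ (Finset.Icc 1 z).filter Nat.Prime,
      ∑' n : ℕ, (fun n : ℕ => af r n * (n : ℝ) ^ (-a)) (p ^ n) = FF L z a := by
    unfold FF
    refine Finset.prod_congr rfl fun p hp => ?_
    have hpp := (Finset.mem_filter.1 hp).2
    obtain ⟨hx0, hx1⟩ := x_lt a ha p hpp
    have := (h.loc p hpp _ hx0 hx1).2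
    simpa only [e p hpp] using this
  rw [h2] at h1
  exact hasSum_subtype_iff_indicator.1 h1

/-- Rankin's trick. -/
theorem rankin {r : ℕ → ℝ} {N : ℝ} {L : ℕ → ℝ → ℝ} (h : Good r N L) (hr : ∀ n, 0 ≤ r n)
    (z S : ℕ) (hS : 1 ≤ S) (s : ℝ) (hs0 : 0 < s) (hs1 : s < 1) :
    FF L z 1 - (S : ℝ) ^ (-s) * FF L z (1 - s) ≤ ∑ n ∈ Finset.Icc 1 S, r n / n := by
  have h1 := hasSum_FF h z 1 one_pos
  have h2 := (hasSum_FF h z (1 - s) (by linarith)).mul_left ((S : ℝ) ^ (-s))
  have h3 := h1.sub h2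
  set F := Finset.Icc 1 S with hF
  set k : ℕ → ℝ := fun n => if n ∈ F then r n / n else 0 with hk
  have h4 : HasSum k (∑ n ∈ F, k n) := hasSum_sum_of_ne_finset_zero fun n hn => by
    simp [hk, hn]
  have h5 : ∑ n ∈ F, k n = ∑ n ∈ F, r n / n := Finset.sum_congr rfl fun n hn => by
    simp [hk, hn]
  have hk0 : ∀ n, 0 ≤ k n := fun n => by
    simp only [hk]
    split_ifs
    · exact div_nonneg (hr n) (Nat.cast_nonneg _)
    · exact le_rfl
  rw [← h5]
  refine hasSum_le (fun n => ?_) h3 h4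
  have hSr : (1 : ℝ) ≤ S := by exact_mod_cast hS
  by_cases hn : n ∈ Nat.factoredNumbers (Finset.Icc 1 z)
  · rw [Set.indicator_of_mem hn, Set.indicator_of_mem hn]
    have hn0 : n ≠ 0 := hn.1
    rw [af_ne hn0]
    have hnr : (0 : ℝ) < n := by exact_mod_cast Nat.pos_of_ne_zero hn0
    have hr' := hr n
    by_cases hnS : n ≤ S
    · have hnF : n ∈ F := by
        rw [hF]
        exact Finset.mem_Icc.2 ⟨Nat.pos_of_ne_zero hn0, hnS⟩
      have hkn : k n = r n / n := by simp [hk, hnF]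
      rw [hkn, Real.rpow_neg_one, div_eq_mul_inv]
      have : 0 ≤ (S : ℝ) ^ (-s) * (r n * (n : ℝ) ^ (-(1 - s))) := by positivity
      linarith
    · have hnF : n ∉ F := by
        intro h
        exact hnS (Finset.mem_Icc.1 h).2
      have hkn : k n = 0 := by simp [hk, hnF]
      rw [hkn]
      have hSn : (S : ℝ) ≤ n := by exact_mod_cast (not_le.1 hnS).le
      have e1 : (n : ℝ) ^ (-1 : ℝ) = (n : ℝ) ^ (-s) * (n : ℝ) ^ (-(1 - s)) := by
        rw [← Real.rpow_add hnr]
        congr 1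
        ring
      have e2 : (n : ℝ) ^ (-s) ≤ (S : ℝ) ^ (-s) :=
        Real.rpow_le_rpow_of_nonpos (by linarith) hSn (by linarith)
      rw [e1]
      have e3 : 0 ≤ r n * (n : ℝ) ^ (-(1 - s)) := by positivity
      nlinarith [mul_le_mul_of_nonneg_right e2 e3]
  · rw [Set.indicator_of_notMem hn, Set.indicator_of_notMem hn]
    have := hk0 n
    simpa using this

theorem FF_le {r : ℕ → ℝ} {N : ℝ} {L : ℕ → ℝ → ℝ} (h : Good r N L) (hN : 0 ≤ N) (z : ℕ)
    (hz : 2 ≤ z) (s : ℝ) (hs : s = 1 / (4 * Real.log z)) :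
    FF L z (1 - s) ≤ Real.exp (∑ p ∈ (Finset.Icc 1 z).filter Nat.Prime,
      4 * N * s * (Real.log p / p)) * FF L z 1 := by
  have hz2 : (2 : ℝ) ≤ z := by exact_mod_cast hz
  have hlz : 0 < Real.log z := Real.log_pos (by linarith)
  have hs0 : 0 < s := by rw [hs]; positivity
  have hsl : s * Real.log z = 1 / 4 := by
    rw [hs]
    field_simp
  have h1 : s < 1 := by
    have : Real.log 2 ≤ Real.log z := Real.log_le_log (by norm_num) hz2
    have h2 := Real.log_two_gt_d9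
    nlinarith
  unfold FF
  rw [Real.exp_sum, ← Finset.prod_mul_distrib]
  refine Finset.prod_le_prod (fun p hp => ?_) (fun p hp => ?_)
  · obtain ⟨hp1, hpp⟩ := Finset.mem_filter.1 hp
    obtain ⟨hx0, hx1⟩ := x_lt (1 - s) (by linarith) p hpp
    exact (h.pos p _ hx0 hx1).le
  · obtain ⟨hp1, hpp⟩ := Finset.mem_filter.1 hp
    have hpz : (p : ℝ) ≤ z := by exact_mod_cast (Finset.mem_Icc.1 hp1).2
    have hp2 : (2 : ℝ) ≤ p := by exact_mod_cast hpp.two_le
    have hlp : 0 < Real.log p := Real.log_pos (by linarith)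
    have hlpz : Real.log p ≤ Real.log z := Real.log_le_log (by linarith) hpz
    set t : ℝ := s * Real.log p with ht
    have ht0 : 0 < t := by positivity
    have ht1 : t ≤ 1 / 4 := by
      rw [← hsl]
      exact mul_le_mul_of_nonneg_left hlpz hs0.le
    have hx : (p : ℝ) ^ (-(1 : ℝ)) = 1 / p := by
      rw [Real.rpow_neg_one, one_div]
    have hy : (p : ℝ) ^ (-(1 - s)) = (1 / p) * Real.exp t := by
      rw [← hx, ht, Real.rpow_def_of_pos (by linarith), Real.rpow_def_of_pos (by linarith),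
        ← Real.exp_add]
      congr 1
      ring
    have he : Real.exp t * (1 - t) ≤ 1 := by
      have h1 : 1 - t ≤ Real.exp (-t) := by
        have := Real.add_one_le_exp (-t)
        linarith
      calc Real.exp t * (1 - t) ≤ Real.exp t * Real.exp (-t) := by gcongr
        _ = 1 := by rw [← Real.exp_add]; simp
    have hE0 := Real.exp_pos t
    have he1 : Real.exp t ≤ 4 / 3 := by nlinarith
    have he2 : Real.exp t - 1 ≤ 4 / 3 * t := by nlinarith
    have he3 : 1 ≤ Real.exp t := Real.one_le_exp ht0.le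
    have hp0 : (0 : ℝ) < 1 / p := by positivity
    have hp12 : (1 : ℝ) / p ≤ 1 / 2 := by
      apply one_div_le_one_div_of_le <;> linarith
    have h9 := h.cmp p ((p : ℝ) ^ (-(1 : ℝ))) ((p : ℝ) ^ (-(1 - s)))
      (by rw [hx]; exact hp0) (by rw [hx, hy]; nlinarith)
      (by rw [hy]; nlinarith)
    refine h9.trans ?_
    obtain ⟨hx0, hx1⟩ := x_lt 1 one_pos p hpp
    refine mul_le_mul_of_nonneg_right ?_ (h.pos p _ hx0 hx1).le
    apply Real.exp_le_exp.2
    rw [hx, hy]
    have : 1 / (p : ℝ) * Real.exp t - 1 / p = (1 / p) * (Real.exp t - 1) := by ring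
    rw [this]
    have h8 : 4 * N * s * (Real.log p / p) = 3 * N * ((1 / p) * (4 / 3 * t)) := by
      rw [ht]
      ring
    rw [h8]
    gcongr

/-- the general statement -/
theorem general {r : ℕ → ℝ} {N : ℝ} {L : ℕ → ℝ → ℝ} (h : Good r N L) (hN : 0 ≤ N)
    (hr : ∀ n, 0 ≤ r n) (C : ℝ) (hC0 : 0 ≤ C)
    (hC : ∀ z : ℕ, 1 ≤ z →
      |∑ p ∈ (Finset.Icc 1 z).filter Nat.Prime, Real.log p / p - Real.log z| ≤ C)
    (a : ℕ) (ha : 4 * (1 + N + 2 * N * C) ≤ a) (X : ℕ) (hX : 2 ≤ X) :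
    1 / 2 * FF L X 1 ≤ ∑ n ∈ Finset.Icc 1 (X ^ a), r n / n := by
  have hz2 : (2 : ℝ) ≤ X := by exact_mod_cast hX
  have hlz : 0 < Real.log X := Real.log_pos (by linarith)
  have hl2 : Real.log 2 ≤ Real.log X := Real.log_le_log (by norm_num) hz2
  have hl2' := Real.log_two_gt_d9
  set s : ℝ := 1 / (4 * Real.log X) with hs
  have hs0 : 0 < s := by rw [hs]; positivity
  have hsl : s * Real.log X = 1 / 4 := by
    rw [hs]
    field_simp
  have hs1 : s ≤ 1 / 2 := by nlinarith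
  set S : ℕ := X ^ a with hS
  have hS1 : 1 ≤ S := Nat.one_le_pow _ _ (by omega)
  have hR := rankin h hr X S hS1 s hs0 (by linarith)
  have hF := FF_le h hN X hX s hs
  have hM : ∑ p ∈ (Finset.Icc 1 X).filter Nat.Prime, 4 * N * s * (Real.log p / p) ≤
      N + 2 * N * C := by
    rw [← Finset.mul_sum]
    have h1 := (abs_le.1 (hC X (by omega))).2
    have h2 : ∑ p ∈ (Finset.Icc 1 X).filter Nat.Prime, Real.log p / p ≤ Real.log X + C := by
      linarith
    have h3 : 0 ≤ N * C := mul_nonneg hN hC0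
    calc 4 * N * s * ∑ p ∈ (Finset.Icc 1 X).filter Nat.Prime, Real.log p / p
        ≤ 4 * N * s * (Real.log X + C) := by gcongr
      _ = 4 * N * (s * Real.log X) + 4 * s * (N * C) := by ring
      _ ≤ N + 2 * N * C := by rw [hsl]; nlinarith
  have hSs : (S : ℝ) ^ (-s) ≤ Real.exp (-(a / 4)) := by
    have h2 : (0 : ℝ) < (X : ℝ) ^ a := by positivity
    rw [hS, Nat.cast_pow, Real.rpow_def_of_pos h2, Real.log_pow]
    apply le_of_eq
    congr 1
    have : (a : ℝ) * Real.log X * -s = -(a * (s * Real.log X)) := by ring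
    rw [this, hsl]
    ring
  have hFp := FF_pos h X 1 one_pos
  have hbound : (S : ℝ) ^ (-s) * FF L X (1 - s) ≤ 1 / 2 * FF L X 1 := by
    calc (S : ℝ) ^ (-s) * FF L X (1 - s)
        ≤ Real.exp (-(a / 4)) * (Real.exp (N + 2 * N * C) * FF L X 1) := by
          have h0 : FF L X (1 - s) ≤ Real.exp (N + 2 * N * C) * FF L X 1 := by
            refine hF.trans ?_
            gcongr
          have h3 : (0 : ℝ) ≤ (S : ℝ) ^ (-s) := by positivity
          calc (S : ℝ) ^ (-s) * FF L X (1 - s)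
              ≤ (S : ℝ) ^ (-s) * (Real.exp (N + 2 * N * C) * FF L X 1) := by gcongr
            _ ≤ _ := by gcongr
      _ = Real.exp (-(a / 4) + (N + 2 * N * C)) * FF L X 1 := by
          rw [Real.exp_add (-((a : ℝ) / 4))]
          ring
      _ ≤ 1 / 2 * FF L X 1 := by
          have h4 : Real.exp (-(a / 4) + (N + 2 * N * C)) ≤ Real.exp (-1) := by
            apply Real.exp_le_exp.2
            linarith
          have h5 : Real.exp (-1) ≤ 1 / 2 := by
            have h6 := Real.exp_one_gt_d9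
            rw [Real.exp_neg, one_div]
            apply inv_anti₀ (by norm_num)
            linarith
          gcongr
          linarith
  linarith

theorem CM.const : CM (fun _ => 1) := ⟨rfl, fun _ _ _ _ => by norm_num, fun _ => by norm_num⟩

theorem log_le (X : ℕ) (hX : 2 ≤ X) :
    Real.log X ≤ FF (fun _ x => (1 - 1 * x)⁻¹) X 1 := by
  have h1 := hasSum_FF CM.const.good X 1 one_pos
  have h2 : ∑ n ∈ Finset.Icc 1 X, (1 : ℝ) / n ≤ FF (fun _ x => (1 - 1 * x)⁻¹) X 1 := by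
    refine le_trans (le_of_eq ?_) (sum_le_hasSum (Finset.Icc 1 X) (fun n _ => ?_) h1)
    · refine Finset.sum_congr rfl fun n hn => ?_
      have hn1 := Finset.mem_Icc.1 hn
      have hn0 : n ≠ 0 := by omega
      have hmem : n ∈ Nat.factoredNumbers (Finset.Icc 1 X) := by
        rw [Nat.mem_factoredNumbers' ]
        intro p hp hpn
        exact Finset.mem_Icc.2 ⟨hp.one_lt.le, (Nat.le_of_dvd (by omega) hpn).trans hn1.2⟩
      rw [Set.indicator_of_mem hmem, af_ne hn0, Real.rpow_neg_one, one_mul, one_div]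
    · refine Set.indicator_nonneg (fun n _ => ?_) n
      by_cases hn0 : n = 0
      · subst hn0
        rw [ArithmeticFunction.map_zero, zero_mul]
      · rw [af_ne hn0]
        positivity
  refine le_trans ?_ h2
  have h3 := log_add_one_le_harmonic X
  have h4 : Real.log X ≤ Real.log (X + 1) := by
    apply Real.log_le_log
    · exact_mod_cast (by omega : 0 < X)
    · linarith
  have h5 : ((harmonic X : ℚ) : ℝ) = ∑ n ∈ Finset.Icc 1 X, (1 : ℝ) / n := by
    rw [harmonic_eq_sum_Icc]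
    push_cast
    simp only [one_div]
  rw [h5] at h3
  push_cast at h3
  linarith

theorem FF_one (f : ℕ → ℝ) (X : ℕ) :
    FF (fun p x => (1 - f p * x)⁻¹) X 1 = Pool.Agent.N71.RP.PP f X := by
  unfold FF Pool.Agent.N71.RP.PP
  refine Finset.prod_congr rfl fun p _ => ?_
  rw [Real.rpow_neg_one, div_eq_mul_inv]

theorem FF_mul (L L' : ℕ → ℝ → ℝ) (X : ℕ) :
    FF (fun p x => L p x * L' p x) X 1 = FF L X 1 * FF L' X 1 := by
  unfold FF
  rw [← Finset.prod_mul_distrib]

/-- SMOG -/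
theorem t_SMOG (hPOS : E_POS) : E_SMOG := by
  obtain ⟨C, hC⟩ := Pool.Agent.Erdos456.Mert.mertens_log
  have hC0 : 0 ≤ C := (abs_nonneg _).trans (hC 1 le_rfl)
  refine ⟨⌈4 * (1 + 4 + 2 * 4 * C)⌉₊, fun a ha X hX f₁ f₂ Q h1 h2 => ?_⟩
  have ha' : 4 * (1 + 4 + 2 * 4 * C) ≤ (a : ℝ) := Nat.ceil_le.1 ha
  obtain ⟨p2, p4, -, -⟩ := hPOS f₁ f₂ Q h1 h2
  have c1 : CM f₁ := ⟨h1.one, h1.mul, h1.val⟩
  have c2 : CM f₂ := ⟨h2.one, h2.mul, h2.val⟩
  have c3 : CM (fun n => f₁ n * f₂ n) := by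
    refine ⟨by rw [h1.one, h2.one, one_mul], fun a b ha hb => ?_, fun n => ?_⟩
    · rw [h1.mul a b ha hb, h2.mul a b ha hb]
      ring
    · rcases h1.val n with h | h | h <;> rcases h2.val n with h' | h' | h' <;> rw [h, h'] <;> norm_num
  have g1 := c1.good.cv CM.const.good
  have g2 := (c2.good.cv c3.good).cv g1
  have hlog := log_le X hX
  have hlog0 : 0 ≤ Real.log X := Real.log_nonneg (by exact_mod_cast (by omega : 1 ≤ X))
  have P1 : 0 < Pool.Agent.N71.RP.PP f₁ X := by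
    rw [← FF_one]
    exact FF_pos c1.good X 1 one_pos
  have P2 : 0 < Pool.Agent.N71.RP.PP f₂ X := by
    rw [← FF_one]
    exact FF_pos c2.good X 1 one_pos
  have P3 : 0 < Pool.Agent.N71.RP.PP (fun n => f₁ n * f₂ n) X := by
    rw [← FF_one]
    exact FF_pos c3.good X 1 one_pos
  constructor
  · have key := general (r := r2 f₁) g1 (by norm_num) p2 C hC0 hC a (by
      have : 0 ≤ C := hC0
      linarith) X hX
    refine le_trans ?_ key
    rw [FF_mul, FF_one]
    have := mul_le_mul_of_nonneg_left hlog P1.le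
    linarith
  · have key := general (r := r4 f₁ f₂) g2 (by norm_num) p4 C hC0 hC a (by
      have : 0 ≤ C := hC0
      linarith) X hX
    refine le_trans ?_ key
    rw [FF_mul, FF_mul, FF_mul, FF_one, FF_one, FF_one]
    have h5 := mul_le_mul_of_nonneg_left hlog (mul_pos (mul_pos P2 P3) P1).le
    linarith

end Pool.Agent.N391.RP
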